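import Pool.Agent.Helper46.T5.Stmts

set_option autoImplicit false

/-!
MP_2f9829_co, modules ACTT (the trilinear form under the action) and ACTV (invariance of the volume).
-/

open Finset MeasureTheory Filter Topology

namespace Pool.Agent.Helper11.T5

open Pool.Agent.Helper46.T5 Pool.Agent.Helper15.T4

/-- Sum over functions of a product. -/
theorem psum {R : Type} [CommRing R] {J : Type} [Fintype J] [DecidableEq J] (f : J → Fin 3 → R) :
    ∑ a : J → Fin 3, ∏ j, f j (a j) = ∏ j, ∑ i, f j i := by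
  rw [Finset.prod_univ_sum, Fintype.piFinset_univ]

/-- Triple sum over functions of a product. -/
theorem psum3 {R : Type} [CommRing R] {J : Type} [Fintype J] [DecidableEq J]
    (f : J → Fin 3 → Fin 3 → Fin 3 → R) :
    ∑ a : J → Fin 3, ∑ b : J → Fin 3, ∑ c : J → Fin 3, ∏ j, f j (a j) (b j) (c j) =
      ∏ j, ∑ p, ∑ q, ∑ r, f j p q r := by
  rw [← psum (fun j p => ∑ q, ∑ r, f j p q r)]
  refine Finset.sum_congr rfl fun a _ => ?_
  rw [← psum (fun j q => ∑ r, f j (a j) q r)]
  refine Finset.sum_congr rfl fun b _ => ?_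
  rw [← psum (fun j r => f j (a j) (b j) r)]

/-- The 3x3 determinant. -/
theorem eps_det {R : Type} [CommRing R] (A : Matrix (Fin 3) (Fin 3) R) (a b c : Fin 3) :
    ∑ p, ∑ q, ∑ r, ((eps p q r : ℤ) : R) * A p a * A q b * A r c =
      A.det * ((eps a b c : ℤ) : R) := by
  fin_cases a <;> fin_cases b <;> fin_cases c <;>
    simp [eps, Fin.sum_univ_three, Matrix.det_fin_three] <;> ring

/-- Exchange of sums. -/
theorem swap3 {R : Type} [CommRing R] {α : Type} [Fintype α] (E : α → α → α → R) (M : α → α → R)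
    (x y z : α → R) :
    ∑ a, ∑ b, ∑ c, E a b c * (∑ a', M a a' * x a') * (∑ b', M b b' * y b') *
      (∑ c', M c c' * z c') =
    ∑ a', ∑ b', ∑ c', (∑ a, ∑ b, ∑ c, E a b c * M a a' * M b b' * M c c') * x a' * y b' * z c' := by
  have h1 : ∀ f : α → α → α → R, ∑ a, ∑ b, ∑ c, f a b c = ∑ t : α × α × α, f t.1 t.2.1 t.2.2 := by
    intro f
    simp only [Fintype.sum_prod_type]
  rw [h1 (fun a b c => E a b c * (∑ a', M a a' * x a') * (∑ b', M b b' * y b') *
      (∑ c', M c c' * z c')),
    h1 (fun a' b' c' => (∑ a, ∑ b, ∑ c, E a b c * M a a' * M b b' * M c c') * x a' * y b' * z c')]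
  have h2 : ∀ t : α × α × α, E t.1 t.2.1 t.2.2 * (∑ a', M t.1 a' * x a') *
      (∑ b', M t.2.1 b' * y b') * (∑ c', M t.2.2 c' * z c') =
      ∑ s : α × α × α, E t.1 t.2.1 t.2.2 * M t.1 s.1 * M t.2.1 s.2.1 * M t.2.2 s.2.2 *
        x s.1 * y s.2.1 * z s.2.2 := by
    intro t
    rw [mul_assoc, mul_assoc, Finset.sum_mul_sum, Finset.sum_mul, Finset.mul_sum,
      Fintype.sum_prod_type]
    refine Finset.sum_congr rfl fun a' _ => ?_
    rw [Fintype.sum_prod_type, Finset.mul_sum, Finset.mul_sum]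
    refine Finset.sum_congr rfl fun b' _ => ?_
    rw [Finset.mul_sum, Finset.mul_sum]
    refine Finset.sum_congr rfl fun c' _ => ?_
    ring
  rw [Finset.sum_congr rfl fun t _ => h2 t, Finset.sum_comm]
  refine Finset.sum_congr rfl fun s _ => ?_
  rw [h1 (fun a b c => E a b c * M a s.1 * M b s.2.1 * M c s.2.2), Finset.sum_mul,
    Finset.sum_mul, Finset.sum_mul]

/-- ACTT. -/
theorem st_ACTT : ST_ACTT := by
  intro R _ J _ _ A x y z
  unfold TJ act
  rw [swap3 (fun a b c => ∏ j, ((eps (a j) (b j) (c j) : ℤ) : R))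
    (fun a b => ∏ j, A j (a j) (b j)) x y z, Finset.mul_sum]
  refine Finset.sum_congr rfl fun a' _ => ?_
  rw [Finset.mul_sum]
  refine Finset.sum_congr rfl fun b' _ => ?_
  rw [Finset.mul_sum]
  refine Finset.sum_congr rfl fun c' _ => ?_
  have h : ∑ a : J → Fin 3, ∑ b : J → Fin 3, ∑ c : J → Fin 3,
      (∏ j, ((eps (a j) (b j) (c j) : ℤ) : R)) * (∏ j, A j (a j) (a' j)) *
        (∏ j, A j (b j) (b' j)) * (∏ j, A j (c j) (c' j)) =
      (∏ j, (A j).det) * ∏ j, ((eps (a' j) (b' j) (c' j) : ℤ) : R) := by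
    simp only [← Finset.prod_mul_distrib]
    rw [psum3 (fun j p q r => ((eps p q r : ℤ) : R) * A j p (a' j) * A j q (b' j) * A j r (c' j))]
    exact Finset.prod_congr rfl fun j _ => eps_det (A j) (a' j) (b' j) (c' j)
  rw [h]
  ring

/-! ### ACTV -/

/-- The Kronecker product of the matrices. -/
def kro {J : Type} [Fintype J] (A : J → M3) : Matrix (J → Fin 3) (J → Fin 3) ℝ :=
  fun a b => ∏ j, A j (a j) (b j)

theorem kro_mul_transpose {J : Type} [Fintype J] [DecidableEq J] (A : J → M3)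
    (hA : ∀ j, SO3 (A j)) : kro A * (kro A).transpose = 1 := by
  ext a c
  rw [Matrix.mul_apply]
  simp only [kro, Matrix.transpose_apply, ← Finset.prod_mul_distrib]
  rw [psum (fun j p => A j (a j) p * A j (c j) p)]
  have h : ∀ j, ∑ p, A j (a j) p * A j (c j) p = (1 : M3) (a j) (c j) := by
    intro j
    rw [← (hA j).1, Matrix.mul_apply]
    rfl
  simp only [h]
  by_cases hac : a = c
  · subst hac
    simp
  · obtain ⟨j, hj⟩ := Function.ne_iff.mp hac
    rw [Matrix.one_apply_ne hac]
    exact Finset.prod_eq_zero (Finset.mem_univ j) (Matrix.one_apply_ne hj)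

theorem act_eq {J : Type} [Fintype J] [DecidableEq J] (A : J → M3) (x : (J → Fin 3) → ℝ) :
    act A x = (kro A).mulVec x := by
  ext a
  rfl

theorem actv_one (J : Type) [Fintype J] [DecidableEq J] (A : J → M3)
    (F : ((J → Fin 3) → ℝ) → ℝ) (hA : ∀ j, SO3 (A j)) : ∫ x, F (act A x) = ∫ x, F x := by
  have h1 := kro_mul_transpose A hA
  have hd : (kro A).det * (kro A).det = 1 := by
    have h := congrArg Matrix.det h1
    rwa [Matrix.det_mul, Matrix.det_transpose, Matrix.det_one] at h
  have hd0 : (kro A).det ≠ 0 := by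
    intro h
    rw [h] at hd
    norm_num at hd
  have habs : |(kro A).det| = 1 := by
    have h2 : |(kro A).det| * |(kro A).det| = 1 := by rw [abs_mul_abs_self, hd]
    nlinarith [abs_nonneg (kro A).det]
  have hmap := Real.map_matrix_volume_pi_eq_smul_volume_pi hd0
  rw [abs_inv, habs, inv_one, ENNReal.ofReal_one, one_smul] at hmap
  have h2 : (kro A).transpose * kro A = 1 := mul_eq_one_comm.mp h1
  let e : ((J → Fin 3) → ℝ) ≃ₗ[ℝ] ((J → Fin 3) → ℝ) :=
    Matrix.toLin'OfInv h2 h1
  have he : ∀ x, e x = act A x := by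
    intro x
    rw [act_eq]
    rfl
  have hcont : MeasurableEmbedding (fun x => act A x) := by
    have h3 := e.toContinuousLinearEquiv.toHomeomorph.measurableEmbedding
    have h4 : (fun x => act A x) = ⇑e.toContinuousLinearEquiv.toHomeomorph := by
      funext x
      exact (he x).symm
    rw [h4]
    exact h3
  have hmp : MeasurePreserving (fun x => act A x) volume volume := by
    refine ⟨hcont.measurable, ?_⟩
    have h5 : (fun x => act A x) = ⇑(Matrix.toLin' (kro A)) := by
      funext x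
      rw [act_eq, Matrix.toLin'_apply]
    rw [h5]
    exact hmap
  exact hmp.integral_comp hcont F

theorem actv_two (J : Type) [Fintype J] [DecidableEq J] (π : Equiv.Perm J)
    (F : ((J → Fin 3) → ℝ) → ℝ) :
    ∫ x : (J → Fin 3) → ℝ, F (fun a => x (a ∘ π)) = ∫ x, F x := by
  let σ : (J → Fin 3) ≃ (J → Fin 3) := Equiv.arrowCongr π (Equiv.refl _)
  have h1 := MeasureTheory.volume_measurePreserving_piCongrLeft (fun _ : J → Fin 3 => ℝ) σ
  have h2 := h1.integral_comp' (g := F)
  rw [← h2]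
  refine integral_congr_ae (Filter.Eventually.of_forall fun x => ?_)
  show F (fun a => x (a ∘ π)) = F (MeasurableEquiv.piCongrLeft (fun _ : J → Fin 3 => ℝ) σ x)
  congr 1
  funext a
  have h3 : a = σ (a ∘ π) := by
    funext j
    simp [σ]
  conv_rhs => rw [h3]
  rw [MeasurableEquiv.piCongrLeft_apply_apply]

/-- ACTV. -/
theorem st_ACTV : ST_ACTV :=
  ⟨fun J _ _ A F hA => actv_one J A F hA, fun J _ _ π F => actv_two J π F⟩

end Pool.Agent.Helper11.T5
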