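import Pool.Agent.Helper46.T5.Stmts

set_option autoImplicit false

/-!
MP_2f9829_co, module DIST: distance to the peak in the chart.
-/

open Finset MeasureTheory Filter Topology

namespace Pool.Agent.Helper11.T5

open Pool.Agent.Helper46.T5 Pool.Agent.Helper15.T4

theorem nsq_nonneg' {ι : Type} [Fintype ι] (x : ι → ℝ) : 0 ≤ nsq x :=
  Finset.sum_nonneg fun i _ => sq_nonneg (x i)

theorem nsq_sub_eq {ι : Type} [Fintype ι] (x y : ι → ℝ) :
    nsq (fun a => x a - y a) = nsq x + nsq y - 2 * ip x y := by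
  unfold nsq ip
  rw [Finset.mul_sum, ← Finset.sum_add_distrib, ← Finset.sum_sub_distrib]
  exact Finset.sum_congr rfl fun i _ => by ring

theorem trace_Cay (v : Fin 3 → ℝ) :
    ((Cay v).transpose * (1 : M3)).trace / 3 = 1 - 4 / 3 * (nsq v / (1 + nsq v)) := by
  have hn : (1 : ℝ) + nsq v ≠ 0 := by
    have := nsq_nonneg' v
    positivity
  rw [mul_one, Matrix.trace_transpose]
  have h2 : (Cay v).trace = (1 + nsq v)⁻¹ * (3 * (1 - nsq v) + 2 * nsq v) := by
    unfold Cay
    rw [Matrix.trace_smul, Matrix.trace_add, Matrix.trace_add, Matrix.trace_smul,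
      Matrix.trace_smul, Matrix.trace_smul]
    simp only [smul_eq_mul, Matrix.trace_one, Fintype.card_fin]
    congr 1
    simp only [Matrix.trace_fin_three, Matrix.vecMulVec_apply, skew, Matrix.of_apply,
      Matrix.cons_val_zero, Matrix.cons_val_one, Matrix.cons_val, nsq, Fin.sum_univ_three]
    push_cast
    ring
  rw [h2]
  field_simp
  ring

/-- DIST. -/
theorem st_DIST (ptv : ST_PTV) (cay : ST_CAY) : ST_DIST := by
  intro K v p
  have hI : ∀ _ : Fin K, SO3 (1 : M3) := fun _ => ⟨by simp, by simp⟩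
  have h1 := ptv K (Fin K × Fin 2) (Equiv.refl _) (fun p => Cay (v p)) (fun _ => 1)
    (fun p => cay (v p))
  have h0 := ptv K (Fin K × Fin 2) (Equiv.refl _) (fun _ => 1) (fun _ => 1) hI
  have e1 : nsq (fun a => pt (Equiv.refl _) (fun p => Cay (v p)) a - u0 K a) =
      2 - 2 * ∏ p, ((Cay (v p)).transpose * (1 : M3)).trace / 3 := by
    rw [nsq_sub_eq, h1.2.1]
    have h3 : nsq (u0 K) = 1 := h0.2.1
    have h4 : ip (pt (Equiv.refl _) (fun p => Cay (v p))) (u0 K) =
      ∏ p, ((Cay (v p)).transpose * (1 : M3)).trace / 3 := h1.2.2.2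
    rw [h3, h4]
    ring
  rw [e1]
  simp only [trace_Cay]
  have hs : ∀ q, 0 ≤ nsq (v q) / (1 + nsq (v q)) ∧ nsq (v q) / (1 + nsq (v q)) ≤ 1 := by
    intro q
    have hq := nsq_nonneg' (v q)
    refine ⟨by positivity, ?_⟩
    rw [div_le_one (by positivity)]
    linarith
  have h5 : ∏ q, (1 - 4 / 3 * (nsq (v q) / (1 + nsq (v q)))) ≤
      |1 - 4 / 3 * (nsq (v p) / (1 + nsq (v p)))| := by
    refine (le_abs_self _).trans ?_
    rw [Finset.abs_prod, ← Finset.mul_prod_erase univ _ (Finset.mem_univ p)]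
    refine mul_le_of_le_one_right (abs_nonneg _) ?_
    refine Finset.prod_le_one (fun q _ => abs_nonneg _) fun q _ => ?_
    obtain ⟨ha, hb⟩ := hs q
    rw [abs_le]
    constructor <;> linarith
  obtain ⟨ha, hb⟩ := hs p
  have h6 : |1 - 4 / 3 * (nsq (v p) / (1 + nsq (v p)))| ≤
      1 - 1 / 4 * (nsq (v p) / (1 + nsq (v p))) := by
    rw [abs_le]
    constructor <;> linarith
  linarith

end Pool.Agent.Helper11.T5
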