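import Pool.Agent.Helper11.T5.DIST

set_option autoImplicit false

/-!
MP_2f9829_co, module LIM: the limit of the gauge fixing function.
-/

open Finset MeasureTheory Filter Topology

namespace Pool.Agent.Helper11.T5

open Pool.Agent.Helper46.T5 Pool.Agent.Helper15.T4

/-- A permutation that preserves the blocks. -/
theorem blk_perm {K : ℕ} (π : Equiv.Perm (Fin K × Fin 2)) (hπ : Blk π) :
    ∃ (e : Equiv.Perm (Fin K)) (fl : Fin K → Fin 2), ∀ p i, π (p, i) = (e p, i + fl p) := by
  classical
  let e0 : Fin K → Fin K := fun p => (π (p, 0)).1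
  let fl : Fin K → Fin 2 := fun p => (π (p, 0)).2
  have h1 : ∀ p i, π (p, i) = (e0 p, i + fl p) := by
    intro p i
    have hne : π (p, 0) ≠ π (p, 1) := by
      intro h
      have := π.injective h
      simp at this
    have hb := hπ p
    have hi : i = 0 ∨ i = 1 := by
      fin_cases i <;> simp
    rcases hi with rfl | rfl
    · simp [e0, fl]
    · have h2 : (π (p, 0)).2 ≠ (π (p, 1)).2 := fun h => hne (Prod.ext hb h)
      have h3 : (π (p, 1)).2 = 1 + (π (p, 0)).2 := by
        revert h2
        generalize (π (p, 0)).2 = a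
        generalize (π (p, 1)).2 = b
        revert a b
        decide
      exact Prod.ext hb.symm h3
  have hs : Function.Surjective e0 := by
    intro q
    obtain ⟨x, hx⟩ := π.surjective (q, 0)
    obtain ⟨p, i⟩ := x
    rw [h1] at hx
    exact ⟨p, congrArg Prod.fst hx⟩
  exact ⟨Equiv.ofBijective e0 (Finite.injective_iff_bijective.mp
    (Finite.injective_iff_surjective.mpr hs)), fl, h1⟩

/-- The products over a matching equivalent to the standard one. -/
theorem pt_blk {K : ℕ} (π : Equiv.Perm (Fin K × Fin 2)) (e : Equiv.Perm (Fin K))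
    (fl : Fin K → Fin 2) (h : ∀ p i, π (p, i) = (e p, i + fl p)) (O : Fin K → M3) :
    pt π O = pt (Equiv.refl _) (fun q => if fl (e.symm q) = 0 then O (e.symm q)
      else (O (e.symm q)).transpose) := by
  funext a
  unfold pt
  rw [← Equiv.prod_comp e.symm]
  refine Finset.prod_congr rfl fun q _ => ?_
  rw [h, h, Equiv.apply_symm_apply]
  have hc : fl (e.symm q) = 0 ∨ fl (e.symm q) = 1 := by
    generalize fl (e.symm q) = b
    revert b
    decide
  rcases hc with hc | hc
  · simp [hc]
  · simp [hc]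

theorem av_blk (avpt : ST_AVPT) {K : ℕ} (π : Equiv.Perm (Fin K × Fin 2)) (hπ : Blk π)
    (F : ((Fin K × Fin 2 → Fin 3) → ℝ) → ℝ) :
    AV K (fun O => F (pt π O)) = AV K (fun O => F (pt (Equiv.refl _) O)) := by
  obtain ⟨e, fl, h⟩ := blk_perm π hπ
  rw [← avpt K (fun O => F (pt (Equiv.refl _) O)) e.symm (fun q => fl (e.symm q))]
  congr 1
  funext O
  rw [pt_blk π e fl h O]

theorem rho_nonneg (v : Fin 3 → ℝ) : 0 ≤ rho v := by
  unfold rho
  have := nsq_nonneg' v
  positivity

theorem AV_nonneg {K : ℕ} {G : (Fin K → M3) → ℝ} (h : ∀ O, 0 ≤ G O) : 0 ≤ AV K G :=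
  integral_nonneg fun _ => mul_nonneg (h _) (Finset.prod_nonneg fun _ _ => rho_nonneg _)

theorem AV_le (av1 : ST_AV1) (cay : ST_CAY) {K : ℕ} {G : (Fin K → M3) → ℝ} {c : ℝ}
    (h0 : ∀ O, 0 ≤ G O) (h : ∀ O, (∀ p, SO3 (O p)) → G O ≤ c) : AV K G ≤ c := by
  obtain ⟨h1, h2⟩ := av1 K
  unfold AV at h1 ⊢
  calc ∫ v : Fin K → Fin 3 → ℝ, G (fun p => Cay (v p)) * ∏ p, rho (v p)
      ≤ ∫ v : Fin K → Fin 3 → ℝ, c * ∏ p, rho (v p) := by
        refine integral_mono_of_nonneg (Filter.Eventually.of_forall fun v => ?_) (h2.const_mul c)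
          (Filter.Eventually.of_forall fun v => ?_)
        · exact mul_nonneg (h0 _) (Finset.prod_nonneg fun p _ => rho_nonneg _)
        · exact mul_le_mul_of_nonneg_right (h _ fun p => cay _)
            (Finset.prod_nonneg fun p _ => rho_nonneg _)
    _ = c := by
        rw [integral_const_mul]
        simp only [one_mul] at h1
        rw [h1, mul_one]

theorem nsq_div {ι : Type} [Fintype ι] (t : ι → ℝ) (N : ℕ) (hN : 0 < N) :
    nsq (fun a => t a / Real.sqrt (2 * N)) = nsq t / (2 * N) := by
  unfold nsq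
  rw [Finset.sum_div]
  refine Finset.sum_congr rfl fun i _ => ?_
  rw [div_pow, Real.sq_sqrt (by positivity)]

/-- LIM. -/
theorem st_LIM (lim1 : ST_LIM1) (comp : ST_COMP) (blkn : ST_BLKN) (avpt : ST_AVPT) (av1 : ST_AV1)
    (cay : ST_CAY) : ST_LIM := by
  classical
  intro K t
  set L : ℝ := ((Real.pi ^ 2)⁻¹ * (3 * Real.pi / 4) ^ ((3 : ℝ) / 2)) ^ K * Real.exp (tq K t / 2)
    with hL
  obtain ⟨δ, hδ, hcomp⟩ := comp K
  have hterm : ∀ (s : ℤˣ) (π : Equiv.Perm (Fin K × Fin 2)), Tendsto (fun N : ℕ =>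
      (2 * (N : ℝ)) ^ (3 * (K : ℝ) / 2) * Real.exp (nsq t / 2) *
        AV K (fun O => Real.exp (-(N : ℝ) *
          nsq (fun a => (u0 K a + t a / Real.sqrt (2 * N)) - ((s : ℤ) : ℝ) * pt π O a)))) atTop
      (𝓝 (if s = 1 ∧ Blk π then L else 0)) := by
    intro s π
    by_cases hsp : s = 1 ∧ Blk π
    · rw [if_pos hsp]
      refine (lim1 K t).congr fun N => ?_
      congr 1
      rw [← av_blk avpt π hsp.2 (fun y => Real.exp (-(N : ℝ) *
          nsq (fun a => u0 K a + t a / Real.sqrt (2 * N) - y a)))]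
      rw [hsp.1]
      simp
    · rw [if_neg hsp]
      have hsp' : s = -1 ∨ ¬ Blk π := by
        rcases Int.units_eq_one_or s with h | h
        · right
          intro hb
          exact hsp ⟨h, hb⟩
        · exact Or.inl h
      have hbd : ∀ᶠ N : ℕ in atTop, (2 * (N : ℝ)) ^ (3 * (K : ℝ) / 2) * Real.exp (nsq t / 2) *
          AV K (fun O => Real.exp (-(N : ℝ) *
            nsq (fun a => (u0 K a + t a / Real.sqrt (2 * N)) - ((s : ℤ) : ℝ) * pt π O a))) ≤
          Real.exp (nsq t) * ((2 * (N : ℝ)) ^ (3 * (K : ℝ) / 2) *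
            Real.exp (-(δ / 4) * (2 * (N : ℝ)))) := by
        filter_upwards [eventually_gt_atTop 0] with N hN
        have h1 : AV K (fun O => Real.exp (-(N : ℝ) *
            nsq (fun a => (u0 K a + t a / Real.sqrt (2 * N)) - ((s : ℤ) : ℝ) * pt π O a))) ≤
            Real.exp (nsq t / 2 + -(δ / 4) * (2 * (N : ℝ))) := by
          refine AV_le av1 cay (fun O => (Real.exp_pos _).le) fun O hO => ?_
          refine Real.exp_le_exp.mpr ?_
          have h2 := hcomp s π O hO hsp'
          have h3 : nsq (fun a => u0 K a - ((s : ℤ) : ℝ) * pt π O a) ≤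
              2 * nsq (fun a => (u0 K a + t a / Real.sqrt (2 * N)) - ((s : ℤ) : ℝ) * pt π O a) +
              2 * nsq (fun a => t a / Real.sqrt (2 * N)) := by
            unfold nsq
            rw [Finset.mul_sum, Finset.mul_sum, ← Finset.sum_add_distrib]
            refine Finset.sum_le_sum fun a _ => ?_
            nlinarith [sq_nonneg (u0 K a - ((s : ℤ) : ℝ) * pt π O a +
              2 * (t a / Real.sqrt (2 * N)))]
          rw [nsq_div t N hN] at h3
          have hN' : (0 : ℝ) < N := by exact_mod_cast hN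
          have h4 : (N : ℝ) * (nsq t / (2 * N)) = nsq t / 2 := by
            field_simp
          nlinarith
        refine (mul_le_mul_of_nonneg_left h1 (by positivity)).trans (le_of_eq ?_)
        rw [Real.exp_add]
        have h5 : Real.exp (nsq t) = Real.exp (nsq t / 2) * Real.exp (nsq t / 2) := by
          rw [← Real.exp_add]
          congr 1
          ring
        rw [h5]
        ring
      have hz : Tendsto (fun N : ℕ => Real.exp (nsq t) * ((2 * (N : ℝ)) ^ (3 * (K : ℝ) / 2) *
            Real.exp (-(δ / 4) * (2 * (N : ℝ))))) atTop (𝓝 0) := by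
        have h6 := tendsto_rpow_mul_exp_neg_mul_atTop_nhds_zero (3 * (K : ℝ) / 2) (δ / 4)
          (by positivity)
        have h7 : Tendsto (fun N : ℕ => 2 * (N : ℝ)) atTop atTop :=
          tendsto_natCast_atTop_atTop.const_mul_atTop (by norm_num)
        have h8 := (h6.comp h7).const_mul (Real.exp (nsq t))
        rw [mul_zero] at h8
        exact h8
      refine squeeze_zero' (Filter.Eventually.of_forall fun N => ?_) hbd hz
      refine mul_nonneg (by positivity) (AV_nonneg fun O => (Real.exp_pos _).le)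
  have hsum : Tendsto (fun N : ℕ => ∑ s : ℤˣ, ∑ π : Equiv.Perm (Fin K × Fin 2),
      (2 * (N : ℝ)) ^ (3 * (K : ℝ) / 2) * Real.exp (nsq t / 2) *
        AV K (fun O => Real.exp (-(N : ℝ) *
          nsq (fun a => (u0 K a + t a / Real.sqrt (2 * N)) - ((s : ℤ) : ℝ) * pt π O a)))) atTop
      (𝓝 (∑ s : ℤˣ, ∑ π : Equiv.Perm (Fin K × Fin 2), if s = 1 ∧ Blk π then L else 0)) :=
    tendsto_finsetSum _ fun s _ => tendsto_finsetSum _ fun π _ => hterm s π
  have hval : (∑ s : ℤˣ, ∑ π : Equiv.Perm (Fin K × Fin 2), if s = 1 ∧ Blk π then L else 0) =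
      CK K * Real.exp (tq K t / 2) := by
    rw [Finset.sum_eq_single (1 : ℤˣ)]
    · simp only [true_and]
      rw [← Finset.sum_filter, Finset.sum_const, nsmul_eq_mul]
      have hc : (univ.filter (fun π : Equiv.Perm (Fin K × Fin 2) => Blk π)).card =
        2 ^ K * K.factorial := by
        have := blkn K
        convert this
      rw [hc, hL]
      unfold CK
      push_cast
      ring
    · intro s _ hs
      refine Finset.sum_eq_zero fun π _ => ?_
      rw [if_neg]
      exact fun h => hs h.1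
    · intro h
      exact absurd (Finset.mem_univ _) h
  rw [hval] at hsum
  refine hsum.congr fun N => ?_
  unfold Psi
  rw [Finset.mul_sum]
  refine Finset.sum_congr rfl fun s _ => ?_
  rw [Finset.mul_sum]

end Pool.Agent.Helper11.T5
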